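import Mathlib
import Pool.Agent.Q63.GB.Main

/-!
# The generalized Bloch conjecture for elementary abelian 2-coverings of projective spaces

Let `Y → P^n`, `n ≥ 1`, be a smooth covering over `ℂ` with a group `G = (ℤ/2)^k`, for any `n` and `k`, branched over any
number of hyperplanes in general position. Examples are the smooth complete intersections of diagonal quadrics and
their smooth quotients by groups of sign changes, like the Campedelli surfaces and their higher dimensional
analogues. Then the generalized Bloch conjecture is true for `Y`, for every `c`: if `Y` has Hodge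
coniveau `≥ c` then all homologically trivial cycles of dimension `i < c` are torsion.

The cohomology of `Y` is that of `P^n` except in the degree `n`, and `H^n(Y)` is the sum, over the nonzero characters
`a` of `G` and with `w = weight a`, of pieces with the Hodge numbers `C(w/2-1, p) C(w/2-1, q)`, `p + q = n`. If the Hodge
coniveau of `Y` is at least `c` then (this is proved in Lean) every character with `w ≥ n + 3` has
`c ≤ n + 1 - w / 2`. The double covering `Y / ker a` is a quotient of a complete intersection of `r = w - n - 1` quadrics
in `P^{w-1}`, and for every smooth complete intersection `X` of `r` quadrics in `P^N` the groups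
`CH_i(X)_{hom} ⊗ ℚ` vanish for `i < (N + 1 - 2r) / 2 = n + 1 - w / 2`: the bundle of quadrics over `P^{r-1}` in the pencil has
only trivial cycles of dimension less than `(N - 1) / 2`, and `CH_i(X)` is a direct summand of the group of its cycles
of dimension `i + r - 1`.
-/

set_option autoImplicit false

namespace Pool.Agent.Results.MP_13bc1c_ag.CoveringsOverHyperplanes

open Pool.Agent.Q63.GB

theorem result {s : ℕ} (n : ℕ) (hn : 1 ≤ n) (Λ : AddSubgroup (Fin s → ZMod 2))
    (ψ : AddChar (ZMod 2) ℂ) (hψ : ψ.IsPrimitive) {V : ℕ → Type} [∀ i, AddCommGroup (V i)]
    [∀ i, Module ℂ (V i)] (ρ : ∀ i, Representation ℂ (Multiplicative (Fin s → ZMod 2)) (V i))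
    (hY : HyperplaneCover n Λ ψ ρ) (c : ℕ)
    (hc : ∀ p q, p + q = n → p ≠ q → min p q < c → hodge Λ p q = 0) :
    ∀ i, i < c → ∀ v : V i, v = 0 :=
  fun i hi v => main hn hψ hY c hc i hi v

end Pool.Agent.Results.MP_13bc1c_ag.CoveringsOverHyperplanes
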