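import Pool.Agent.Q72.DP.Dim

/-!
# The generalized Bloch conjecture and the highest powers of divisors

`𝒱` is the class of smooth projective complex varieties (or any class of smooth proper varieties over
a field `k` closed under products), `C` the Chow groups with rational coefficients (in the form of
their formal properties, `IsChowProj`), `H` a Weil cohomology theory (`IsWeilProj`; for the problem:
Betti cohomology), `B` the Grothendieck rings of vector bundles (with their known properties,
`IsKTheory`), `Rat` the class of rational varieties and `Q c` the class of the varieties of Hodge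
coniveau `≥ c`; only the known properties `IsConiveau` of these classes under projective bundles and
blow-ups are used.

Theorem. The following are equivalent:
* the generalized Bloch conjecture: `A_i^hom(Y) = 0` for all `c ≥ 1`, all `Y` of coniveau `≥ c` and
  all `i < c`;
* for all `c ≥ 1`, all `Y` of coniveau `≥ c`, all `i < c` and all divisors `G` on `Y`: if the class
  `G^(dim Y - i)`, a cycle class of dimension `i`, is homologically trivial, then it is zero in
  `A_i(Y)`;
* the same only for `i = c - 1`;
* the same only for `i = c - 1`, `c ≥ 2` and rational varieties `Y`.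
-/

open CategoryTheory AlgebraicGeometry

set_option autoImplicit false

universe u v w

namespace Pool.Agent.Results.MP_13bc1c_ag.HighestPowers

open Pool.Agent.H914 Pool.Agent.W492.BB Pool.Agent.TH133 Pool.Agent.Q72.DP

/-- The generalized Bloch conjecture is equivalent to the vanishing of the homologically trivial
powers `G^(dim Y - c + 1)` of divisors on the rational varieties of coniveau `≥ c`, `c ≥ 2`. -/
theorem result {k : Type u} [Field k] {𝒱 : VarClass k} (C : TheoryData.{u, v, 0} 𝒱 ℚ)
    [IsChowProj C] {K : Type w} [Field K] (H : WeilTheoryData.{u, v, w} C K) [IsWeilProj H]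
    (B : BundleData C) (hB : B.IsKTheory) (Rat : 𝒱.Obj → Prop) (Q : ℕ → 𝒱.Obj → Prop)
    (hQ : IsConiveau B Rat Q) :
    [∀ c : ℕ, 1 ≤ c → ∀ Y : 𝒱.Obj, Q c Y → ∀ i < c, HomZeroDim H Y i,
      ∀ c : ℕ, 1 ≤ c → ∀ Y : 𝒱.Obj, Q c Y → ∀ i < c, TopPowerZero H Y i,
      ∀ c : ℕ, 1 ≤ c → ∀ Y : 𝒱.Obj, Q c Y → TopPowerZero H Y (c - 1),
      ∀ c : ℕ, 2 ≤ c → ∀ Y : 𝒱.Obj, Q c Y → Rat Y → TopPowerZero H Y (c - 1)].TFAE :=
  coniveau_tfae hB hQ

end Pool.Agent.Results.MP_13bc1c_ag.HighestPowers
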