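import Pool.Agent.Q145.NC.Quot

/-!
# The generalized Bloch conjecture (`c = 1`) for quotients of products of curves

`k` is an algebraically closed field of characteristic zero, `C_j` (`j` in a finite set) are smooth
projective curves over `k`, `X = ∏ C_j ^ (N j)` is a product of powers of them and `G` is a finite
group which acts on `X` by natural automorphisms: the coordinates of `σ x` are of the form
`a(x_(j, f(j, q)))`, where `f` is a permutation and `a` is an automorphism of `C_j` that acts as an
integer (`1` or `-1`) on the Jacobian of `C_j`: the identity, the hyperelliptic involution, a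
translation or a point reflection of an elliptic curve.

Theorem. If `H^{i,0}(X)^G = 0` for all `i > 0` then `CH_0(X/G)_ℚ = ℚ`.

So `CH_0(Y)_ℚ = ℚ` for every desingularization `Y` of `X/G`, as predicted by the generalized Bloch
conjecture: the holomorphic `i`-forms on `Y` are the `G`-invariant `i`-forms on `X`.
-/

set_option autoImplicit false

namespace Pool.Agent.Results.MP_13bc1c_ag.QuotientsOfProductsOfCurves

open FF Pool.Agent.Q70.CH Pool.Agent.Q145.NC

/-- There are no `G`-invariant holomorphic `i`-forms on `X = ∏ C_j ^ (N j)`.  A holomorphic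
`i`-form on `X` is given by an alternating form `φ` on the tangent space
`⨁_j (k ^ (g j)) ^ (N j)` of the product of the Jacobians which vanishes if two arguments belong to
the same factor; the pull-back of `φ` by `σ` is its composition with the differential of `σ`. -/
def NoInvariantForms {k : Type} [Field k] [CharZero k] {J : Type} {K : J → Type}
    [∀ j, Field (K j)] [∀ j, Algebra k (K j)] (g : J → ℕ) {N : J → Type} {G : Type} [Group G]
    (A : NAct k K N G) (i : ℕ) : Prop :=
  ∀ φ : TS k g N [⋀^Fin i]→ₗ[k] k, IsForm φ →
    (∀ σ, φ.compLinearMap (linN (A.F σ).f (A.F σ).s) = φ) → φ = 0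

theorem result {k : Type} [Field k] [CharZero k] [IsAlgClosed k] {J : Type} [Finite J]
    {K : J → Type} [∀ j, Field (K j)] [∀ j, Algebra k (K j)] [∀ j, IsFF k (K j)] {g : J → ℕ}
    (hg : ∀ j, IsGenus k (K j) (g j)) {N : J → Type} [∀ j, Finite (N j)] {G : Type} [Group G]
    [Finite G] (A : NAct k K N G) (hA : ∀ i, 0 < i → NoInvariantForms g A i)
    (w : A.Orb →₀ ℚ) (hw : (w.sum fun _ c => c) = 0) : w ∈ A.ratQ :=
  A.quotient hg (fun i hi => hA i hi) w hw

end Pool.Agent.Results.MP_13bc1c_ag.QuotientsOfProductsOfCurves
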