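import Mathlib
import Pool.Agent.Q63.SP.Motive

/-!
# The generalized Bloch conjecture for abelian coverings of projective spaces of dimension at most four

Let `X → P^n`, `n ≤ 4`, be a smooth abelian covering over `ℂ` whose group `G` is a quotient of `(ℤ/m)^s`, where
`m = 2, 3, 4` or `6`, branched over hyperplanes in general position such that every character is ramified over at
most `n + 3` of them. Examples are the smooth complete intersections of two diagonal hypersurfaces of degree
`m` in `P^(n+2)`. Then the generalized Bloch conjecture is true for `X` and more generally for all correspondences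
`Γ = ∑ x h • h`, `h ∈ G`, and for every `c`: if `Γ` acts as zero on all `H^(p,q)(X)` with `p ≠ q` and `min (p, q) < c`, then
`Γ` acts as zero on the homologically trivial cycles of dimension `i < c`.

For a character `a` which is ramified over `w` hyperplanes let `N` and `N'` be the sums of the fractional parts of
the numbers `a_i / m` and `- a_i / m`, so that `N + N' = w`. If `w ≤ n + 3` then the part of the motive of `X` for `a` is the
`n`-th alternating power (in cohomology) of the part `h^1(C)_a` of the motive of the curve `C : y ^ m = ∏ (p_i - x) ^ (a_i)`;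
this is proved in Lean in the form that the cyclic covering with the exponents `a` is the image of `C ^ n` under a
symmetric map. `h^1(C)_a` has the Hodge numbers `N - 1`, `N' - 1` and the rank `w - 2`. So the alternating power is
the determinant of `h^1(C)_a` for `w = n + 2`, and the tensor product of the dual and the determinant for
`w = n + 3`. The determinant is the space of the classes considered by Weil on an abelian variety with complex
multiplication by `ℚ(√-1)` or `ℚ(√-3)`; after multiplication with a power of an elliptic curve this is an abelian variety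
of Weil type, and the algebraicity of the Weil classes (Schoen, Koike, Markman; in dimension six the
discriminant has to be trivial, which can be achieved if `N ≠ N'`) shows that the determinant is a Tate twist by
`min (N, N') - 1` of the motive of a power of an elliptic curve.
-/

set_option autoImplicit false

namespace Pool.Agent.Results.MP_13bc1c_ag.WeilTypeCoverings

open Multiplicative Pool.Agent.Q63.KU Pool.Agent.Q63.KI Pool.Agent.Q63.SP

variable {m s : ℕ} [NeZero m]

/-- The sum of the fractional parts of the numbers `a i / m`. -/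
def num (a : Fin s → ZMod m) : ℕ := (∑ i, (a i).val) / m

/-- The dimension of the part of `H^(p,q)(X)` for the character `a`, for `p + q = n`. -/
def hodge (a : Fin s → ZMod m) (p q : ℕ) : ℕ := (num a - 1).choose p * (num (-a) - 1).choose q

/-- The part of the representation `V` for the character `a`. -/
def part {V : Type} [AddCommGroup V] [Module ℂ V] (ψ : AddChar (ZMod m) ℂ)
    (ρ : Representation ℂ (Multiplicative (Fin s → ZMod m)) V) (a : Fin s → ZMod m) : Set V :=
  {u | ∀ h : Fin s → ZMod m, ρ (ofAdd h) u = ψ (∑ i, a i * h i) • u}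

/-- `X → P^n` is a smooth abelian covering over `ℂ` branched over the `s` hyperplanes `v i ⬝ᵥ z = 0`, with a
group which is a quotient of `(ℤ/m)^s`, where the `i`-th generator goes to the canonical generator of the
inertia group of the `i`-th hyperplane; `Λ` is the group of its characters, as a subgroup of `(ℤ/m)^s`. `V i` is the
space of the homologically trivial cycles of dimension `i` on `X`, with coefficients in `ℂ`, modulo rational
equivalence, with the action `ρ i`. -/
structure HyperplaneCover {n : ℕ} (v : Fin s → Fin (n + 1) → ℂ) (Λ : AddSubgroup (Fin s → ZMod m))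
    (ψ : AddChar (ZMod m) ℂ) {V : ℕ → Type} [∀ i, AddCommGroup (V i)] [∀ i, Module ℂ (V i)]
    (ρ : ∀ i, Representation ℂ (Multiplicative (Fin s → ZMod m)) (V i)) : Prop where
  /-- the product of the `a i`-th powers of the linear forms has a degree divisible by `m` -/
  sum_zero : ∀ a ∈ Λ, ∑ i, a i = 0
  /-- only characters of the covering occur -/
  characters : ∀ i, ∀ a, a ∉ Λ → ∀ u ∈ part ψ (ρ i) a, u = 0
  /-- the cyclic coverings of `P^n` which are branched over at most `n + 1` hyperplanes in general position are toric -/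
  toric : ∀ i, ∀ a ∈ Λ, lines a ≤ n + 1 → ∀ u ∈ part ψ (ρ i) a, u = 0
  /-- Let `m` be `2`, `3`, `4` or `6`. If the affine part of the cyclic covering with the exponents `a` is the image of the
  power `C ^ n` under a symmetric map, its motive is the alternating power of the part of `h^1(C)` for `a`, with the
  Hodge numbers `p = num a - 1` and `q = num (-a) - 1`. If these are at most three and not both three, the
  determinant is the twist by `min p q` of a factor of the motive of `E ^ |p - q|`, `E` an elliptic curve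
  (Schoen, Koike, Markman); so the part for `a` of the motive of `X` is the twist by `min p q` (or by `min p q - 1`
  if `p + q = n + 1`) of a factor of the motive of `E ^ |p - q|` (or `C × E ^ |p - q|`). -/
  weil : (m = 2 ∨ m = 3 ∨ m = 4 ∨ m = 6) → ∀ i, ∀ a ∈ Λ, IsCurvePower m v (fun j => (a j).val) →
    ∀ p q : ℕ, num a = p + 1 → num (-a) = q + 1 → p ≤ 3 → q ≤ 3 → p + q ≤ 5 →
      (p + q = n ∨ p + q = n + 1) → (i + (p + q) < n + min p q ∨ (p = q ∧ p + q = n)) →
      ∀ u ∈ part ψ (ρ i) a, u = 0

lemma val_add_val_neg (x : ZMod m) : x.val + (-x).val = if x ≠ 0 then m else 0 := by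
  rw [ZMod.neg_val]
  by_cases hx : x = 0
  · simp [hx]
  · rw [if_neg hx, if_pos hx]
    have := ZMod.val_lt x
    omega

lemma m_dvd {a : Fin s → ZMod m} (ha : ∑ i, a i = 0) : m ∣ ∑ i, (a i).val := by
  rw [← ZMod.natCast_eq_zero_iff, Nat.cast_sum]
  simp only [ZMod.natCast_zmod_val]
  exact ha

lemma num_add {a : Fin s → ZMod m} (ha : ∑ i, a i = 0) : num a + num (-a) = lines a := by
  have hm : 0 < m := Nat.pos_of_ne_zero (NeZero.ne m)
  have ha' : ∑ i, (-a) i = 0 := by
    simp only [Pi.neg_apply, Finset.sum_neg_distrib, ha, neg_zero]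
  obtain ⟨x, hx⟩ := m_dvd ha
  obtain ⟨y, hy⟩ := m_dvd ha'
  have h1 : ∑ i, (a i).val + ∑ i, ((-a) i).val = m * lines a := by
    rw [← Finset.sum_add_distrib]
    simp only [Pi.neg_apply, val_add_val_neg]
    rw [← Finset.sum_filter, Finset.sum_const, smul_eq_mul, mul_comm]
    rfl
  unfold num
  rw [hx, hy, Nat.mul_div_cancel_left _ hm, Nat.mul_div_cancel_left _ hm]
  rw [hx, hy, ← mul_add] at h1
  exact Nat.eq_of_mul_eq_mul_left hm h1

lemma num_pos {a : Fin s → ZMod m} (ha : ∑ i, a i = 0) (h0 : a ≠ 0) : 0 < num a := by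
  have hm : 0 < m := Nat.pos_of_ne_zero (NeZero.ne m)
  obtain ⟨x, hx⟩ := m_dvd ha
  unfold num
  rw [hx, Nat.mul_div_cancel_left _ hm]
  by_contra h
  have hx0 : x = 0 := by omega
  rw [hx0, mul_zero, Finset.sum_eq_zero_iff] at hx
  apply h0
  funext i
  exact (ZMod.val_eq_zero (a i)).1 (hx i (Finset.mem_univ i))

variable {n : ℕ} {v : Fin s → Fin (n + 1) → ℂ} {Λ : AddSubgroup (Fin s → ZMod m)}
    {ψ : AddChar (ZMod m) ℂ} {V : ℕ → Type} [∀ i, AddCommGroup (V i)] [∀ i, Module ℂ (V i)]
    {ρ : ∀ i, Representation ℂ (Multiplicative (Fin s → ZMod m)) (V i)}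

/-- the main step: one character -/
theorem part_zero (hn : 1 ≤ n) (hn4 : n ≤ 4) (hm : m = 2 ∨ m = 3 ∨ m = 4 ∨ m = 6)
    (hX : HyperplaneCover v Λ ψ ρ) {a : Fin s → ZMod m} (ha : a ∈ Λ)
    (hC : IsCurvePower m v (fun j => (a j).val)) (hl : lines a ≤ n + 3) {c : ℕ}
    (hc : ∀ p q, p + q = n → p ≠ q → min p q < c → hodge a p q = 0) {i : ℕ} (hi : i < c) :
    ∀ u ∈ part ψ (ρ i) a, u = 0 := by
  rcases Nat.lt_or_ge (n + 1) (lines a) with h1 | h1
  swap
  · exact hX.toric i a ha h1
  have hs := hX.sum_zero a ha
  have hs' : ∑ j, (-a) j = 0 := by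
    simp only [Pi.neg_apply, Finset.sum_neg_distrib, hs, neg_zero]
  have ha0 : a ≠ 0 := by
    rintro rfl
    have : lines (0 : Fin s → ZMod m) = 0 := by simp [lines]
    omega
  have h2 := num_add hs
  have h3 := num_pos hs ha0
  have h4 : 0 < num (-a) := num_pos hs' (neg_ne_zero.2 ha0)
  obtain ⟨p, hp⟩ : ∃ p, num a = p + 1 := ⟨num a - 1, by omega⟩
  obtain ⟨q, hq⟩ : ∃ q, num (-a) = q + 1 := ⟨num (-a) - 1, by omega⟩
  have hhodge : ∀ x y, hodge a x y = p.choose x * q.choose y := by
    intro x y
    unfold hodge
    rw [hp, hq, Nat.add_sub_cancel, Nat.add_sub_cancel]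
  have hne : ∀ x y, x ≤ p → y ≤ q → hodge a x y ≠ 0 := by
    intro x y hx hy
    rw [hhodge]
    exact Nat.mul_ne_zero (Nat.choose_pos hx).ne' (Nat.choose_pos hy).ne'
  have hcon : ∀ x y, x + y = n → x ≠ y → x ≤ p → y ≤ q → c ≤ min x y := by
    intro x y hxy hne' hx hy
    by_contra hlt
    push Not at hlt
    exact hne x y hx hy (hc x y hxy hne' hlt)
  rcases (show p + q = n ∨ p + q = n + 1 by omega) with h5 | h5
  · by_cases hpq : p = q
    · exact hX.weil hm i a ha hC p q hp hq (by omega) (by omega) (by omega) (Or.inl h5)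
        (Or.inr ⟨hpq, h5⟩)
    · have h6 := hcon p q h5 hpq le_rfl le_rfl
      exact hX.weil hm i a ha hC p q hp hq (by omega) (by omega) (by omega) (Or.inl h5)
        (Or.inl (by omega))
  · have hp0 : 0 < p := by
      by_contra h
      have := hcon 0 n (by omega) (by omega) (by omega) (by omega)
      omega
    have hq0 : 0 < q := by
      by_contra h
      have := hcon n 0 (by omega) (by omega) (by omega) (by omega)
      omega
    have h6 : c ≤ min p q - 1 := by
      rcases Nat.lt_or_ge p q with h7 | h7
      · have := hcon (p - 1) q (by omega) (by omega) (by omega) le_rfl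
        omega
      · have := hcon p (q - 1) (by omega) (by omega) le_rfl (by omega)
        omega
    exact hX.weil hm i a ha hC p q hp hq (by omega) (by omega) (by omega) (Or.inr h5)
      (Or.inl (by omega))

/-- **The generalized Bloch conjecture for abelian coverings of projective spaces of dimension at most four.** See the
explanations above. -/
theorem result (m s n : ℕ) [NeZero m] (hm : m = 2 ∨ m = 3 ∨ m = 4 ∨ m = 6) (hn : 1 ≤ n) (hn4 : n ≤ 4)
    (v : Fin s → Fin (n + 1) → ℂ) (hv : GenPos v) (hs : n + 3 ≤ s) (Λ : AddSubgroup (Fin s → ZMod m))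
    (hΛ : ∀ a ∈ Λ, lines a ≤ n + 3) (ψ : AddChar (ZMod m) ℂ) (hψ : ψ.IsPrimitive) {V : ℕ → Type}
    [∀ i, AddCommGroup (V i)] [∀ i, Module ℂ (V i)]
    (ρ : ∀ i, Representation ℂ (Multiplicative (Fin s → ZMod m)) (V i)) (hX : HyperplaneCover v Λ ψ ρ)
    (c : ℕ) :
    (∀ x : (Fin s → ZMod m) → ℂ,
      (∀ a ∈ Λ, ∀ p q, p + q = n → p ≠ q → min p q < c → hodge a p q ≠ 0 →
        ∑ h, x h * ψ (∑ i, a i * h i) = 0) →
      ∀ i, i < c → ∀ u : V i, ∑ h, x h • ρ i (ofAdd h) u = 0) ∧
    ((∀ a ∈ Λ, ∀ p q, p + q = n → p ≠ q → min p q < c → hodge a p q = 0) →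
      ∀ i, i < c → ∀ u : V i, u = 0) := by
  have hC := isCurvePower (m := m) (by omega : 0 < n) (Or.inl ⟨hv, hs, hΛ⟩)
  have main : ∀ x : (Fin s → ZMod m) → ℂ,
      (∀ a ∈ Λ, ∀ p q, p + q = n → p ≠ q → min p q < c → hodge a p q ≠ 0 →
        ∑ h, x h * ψ (∑ i, a i * h i) = 0) →
      ∀ i, i < c → ∀ u : V i, ∑ h, x h • ρ i (ofAdd h) u = 0 := by
    intro x hx i hi u
    have hcmp : ∀ a, ∑ h, x h • ρ i (ofAdd h) (comp (ρ i) ψ u a) = 0 := by
      intro a
      have hmem : comp (ρ i) ψ u a ∈ part ψ (ρ i) a := fun h => act_comp u a h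
      by_cases ha : a ∈ Λ
      · by_cases h0 : ∀ p q, p + q = n → p ≠ q → min p q < c → hodge a p q = 0
        · have := part_zero hn hn4 hm hX ha (hC a ha) (hΛ a ha) h0 hi _ hmem
          simp [this]
        · push Not at h0
          obtain ⟨p, q, h1, h2, h3, h4⟩ := h0
          have h5 : ∑ h, x h • ρ i (ofAdd h) (comp (ρ i) ψ u a) =
              (∑ h, x h * ψ (∑ j, a j * h j)) • comp (ρ i) ψ u a := by
            rw [Finset.sum_smul]
            exact Finset.sum_congr rfl fun h _ => by rw [hmem h, smul_smul]
          rw [h5, hx a ha p q h1 h2 h3 h4, zero_smul]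
      · have := hX.characters i a ha _ hmem
        simp [this]
    have h1 : ∀ h : Fin s → ZMod m, x h • ρ i (ofAdd h) u =
        ∑ a, x h • ρ i (ofAdd h) (comp (ρ i) ψ u a) := by
      intro h
      rw [← Finset.smul_sum, ← map_sum, sum_comp hψ]
    simp_rw [h1]
    rw [Finset.sum_comm]
    exact Finset.sum_eq_zero fun a _ => hcmp a
  refine ⟨main, fun hc i hi u => ?_⟩
  have h1 := main (fun h => if h = 0 then 1 else 0)
    (fun a ha p q h1 h2 h3 h4 => absurd (hc a ha p q h1 h2 h3) h4) i hi u
  have h2 : ∑ h : Fin s → ZMod m, (if h = 0 then (1 : ℂ) else 0) • ρ i (ofAdd h) u = u := by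
    simp only [ite_smul, one_smul, zero_smul]
    rw [Finset.sum_ite_eq' Finset.univ (0 : Fin s → ZMod m), if_pos (Finset.mem_univ _)]
    have : ofAdd (0 : Fin s → ZMod m) = 1 := rfl
    rw [this, map_one]
    rfl
  rw [← h2]
  exact h1

end Pool.Agent.Results.MP_13bc1c_ag.WeilTypeCoverings
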